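import Pool.Agent.U393.LT.Fam

/-!
# Non-vanishing for the images of families over varieties whose canonical forms separate points

Let `X_0, ..., X_{k-1}` be varieties over `ℂ` of dimensions `n_i`, such that the canonical forms of (a
smooth projective model of) `X_i` separate fewer than `g_i` general points (`SeparatesPoints`): if
`P_1, ..., P_s` are pairwise different points with values in an algebraically closed field, `s < g_i`,
each one mapped to the generic point of `X_i`, then for each `j` there is a canonical form with nonzero
value at `P_j` and the value zero at the other ones. For instance `X_i` is a smooth complete intersection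
with the canonical bundle `O(m_i)`, and `g_i` may be of the order of `m_i ^ 2`, or `X_i` is a curve of
gonality at least `g_i` (`Pool.Agent.N162.GQ.sep_factor`).

Let `V` be any variety with dominant rational maps `V ⇢ X_i`, `i < k`. The map
`V ⇢ X_0 × ... × X_{k-1}` may be neither dominant nor generically finite. Let `V ⇢ W` be any dominant
rational map of finite degree to a variety `W`, such that the map from `V` to
`W × X_0 × ... × X_{k-1}` is generically injective. Let `W_i` be the image of `V` in
`W × X_0 × ... × X_{i-1}`, and let `d_i` be the degree of `W_{i+1}` over `W_i`. So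
`d_0 d_1 ... d_{k-1}` is the degree of `V ⇢ W`.

**Theorem.** Suppose that `d_i < g_i` for all `i < k`. Then `W` is uniruled if and only if `V` is
uniruled, if and only if `V` is covered by rational curves which are contracted by all the maps
`V ⇢ X_i`. Suppose moreover that `V` is uniruled, or that there is a nonzero rational section `η` of
`K_V - ∑ p_i^* K_{X_i}` such that the products of `η` with the canonical forms of the `X_i` are
canonical forms of `V` without poles (for instance a section without poles: `K_V - ∑ p_i^* K_{X_i}` is
effective). Then the following are equivalent: `K_W` is pseudo-effective; `κ(W) ≥ 0`; `p_g(W) > 0`; `W`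
is not uniruled.

So Q1 is true for all Moishezon manifolds which are bimeromorphic to such a `W`. Examples:

* `V ⇢ X_0 × ... × X_{k-1}` is generically finite: then no `W` as above is uniruled;
* `V = X_0 × ... × X_{k-1} × Y` for a variety `Y` which is uniruled or has `p_g(Y) > 0`
  (`MP_23b606_ag.ProductsTimesVariety`, by the same author);
* `V` is a smooth member of a linear system `|L|` on `X_0 × ... × X_{k-1} × P`, where `P` is a smooth
  projective variety such that `L + K_P` has a section which is not zero on `V`, for instance a family of
  hypersurfaces of degree at least `r + 1` in `ℙ^r` over the product of the `X_i`, or an ample divisor in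
  the product of the `X_i`;
* `V` is dominated by `X_0 × ... × X_{k-1} × Y`, it is the image in `W × X_0 × ... × X_{k-1}`: so for
  arbitrary images `W` of such a product the problem is reduced to the generic fibre of
  `V ⇢ X_0 × ... × X_{k-1}`. If `Y` is a curve then this is a curve; this case is
  `MP_23b606_ag.ProductsTimesCurve`.

(The examples are not part of the Lean proof.)

Proof. Let `M × ℙ¹ ⇢ W` be dominant of finite degree, with the coordinate `t` on `ℙ¹`, let `R` be the
function field of `M × ℙ¹`, and let `Ω` be a Galois extension of the function field of `W` which contains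
`R` and the function field of `V`. Suppose that it is known that the functions on `X_l`, `l < i`, are
constant along the lift of `d/dt` to `Ω`; then they generate with `R` the function field `R_i` of a
variety `M_i × ℙ¹`. If a function on `X_i` is not constant along the lift of `d/dt` then `Ω` is
algebraic over the field generated by the function field of `X_i` and functions `b_1, ..., b_s` on
`M_i`. For each canonical form `ω` on `X_i` the trace of `ω ∧ db_1 ∧ ... ∧ db_s` to `R_i` is a rational form
of top degree on `M_i × ℙ¹` without poles along the divisors which are dominant over `M_i`, so it is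
zero. This is a relation between the values of `ω` at the conjugates over `R_i` of the generic point of
`X_i`; their number is at most `d_i`, so the coefficients of the relation are zero, a contradiction.
Hence the functions on all `X_i` are constant along the lift of `d/dt`.

For the geometric genus one takes the traces of the products of `η` and the canonical forms on the
`X_i`, and eliminates the coordinates on `X_0, ..., X_{k-1}` one after the other. Traces of canonical
forms and the elimination are due to helper145, helper123, helper442 and others
(`Pool/Agent/N145/SX`, `Pool/Agent/R882/LTr.lean`).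
-/

set_option autoImplicit false
set_option linter.overlappingInstances false

open FF Module Pool.Agent
open Pool.Agent.N162.BC (GlobalForm)
open Pool.Agent.W602.GT (Psef IsPluri)
open Pool.Agent.W619.PQ (IsUniruled KodairaNeg)

namespace Pool.Agent.Results.MP_813db1_ag.ImagesOfFamilies

/-- `f dx_1 ∧ ... ∧ dx_n` is a canonical form without poles on the smooth projective models of the
function field `E`; here `x` is a transcendence basis. -/
def IsCanonical {E : Type} [Field E] [Algebra ℂ E] {n : ℕ} (x : Fin n → E) (f : E) : Prop :=
  GlobalForm n (fun D => (Matrix.of fun i j => D i (x j)).det * f)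

/-- The canonical forms of the variety with the function field `E` separate fewer than `g` general
points: let `A` be a set of fewer than `g` embeddings of `E` into an algebraically closed field `Ω`
(points with values in `Ω` which are mapped to the generic point of the variety), and let `c σ` be
elements of `Ω` such that the sum of all `c σ * σ f` is zero for all functions `f` for which
`f dx_1 ∧ ... ∧ dx_n` is a canonical form. Then all `c σ` are zero. -/
def SeparatesPoints {E : Type} [Field E] [Algebra ℂ E] {n : ℕ} (x : Fin n → E) (g : ℕ) : Prop :=
  ∀ (Ω : Type) [Field Ω] [Algebra ℂ Ω] [IsAlgClosed Ω] (A : Finset (E →ₐ[ℂ] Ω)), A.card < g →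
    ∀ c : (E →ₐ[ℂ] Ω) → Ω, (∀ f : E, IsCanonical x f → ∑ σ ∈ A, c σ * σ f = 0) → ∀ σ ∈ A, c σ = 0

/-- The function field of the image `W_i` of `V` in `W × X_0 × ... × X_{i-1}`: here `V` and `W` are
the function fields, and `F l` is the function field of `X_l`. -/
noncomputable def Img {V : Type} [Field V] [Algebra ℂ V] {k : ℕ}
    (F : Fin k → IntermediateField ℂ V) (W : Type) [Field W] [Algebra W V] (i : ℕ) :
    IntermediateField W V :=
  IntermediateField.adjoin W {z | ∃ l : Fin k, l.val < i ∧ z ∈ F l}

/-- The degree `d_i` of `W_{i+1}` over `W_i`. -/
noncomputable def deg {V : Type} [Field V] [Algebra ℂ V] {k : ℕ}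
    (F : Fin k → IntermediateField ℂ V) (W : Type) [Field W] [Algebra W V] (i : Fin k) : ℕ :=
  finrank (Img F W i) (IntermediateField.adjoin (Img F W i) (F i : Set V))

/-- The variety `V` with the function field `V`, of dimension `N`, is covered by rational curves which
are contracted by all the maps to the `X_i`, where the function fields of the `X_i` generate `U`: there
are a variety of dimension `N - 1`, with the function field `M`, and an embedding of `V` into the field
of rational functions `M(t)`, which maps `U` into `M`. -/
def IsUniruledOver {V : Type} [Field V] [Algebra ℂ V] (U : IntermediateField ℂ V) (N : ℕ) : Prop :=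
  ∃ (M : Type) (_ : Field M) (_ : Algebra ℂ M), Algebra.EssFiniteType ℂ M ∧
    Algebra.trdeg ℂ M + 1 = N ∧ ∃ φ : V →ₐ[ℂ] RatFunc M, ∀ z ∈ U,
      φ z ∈ Set.range (algebraMap M (RatFunc M))

/-- `η` is a nonzero rational canonical form on `V`, of dimension `N`, such that for all functions `f i`
on `X_i` for which `f i dx_1 ∧ ... ∧ dx_n` is a canonical form on `X_i` the product of `η` and all `f i`
is a canonical form without poles on `V`. If one divides `η` by the forms `dx_1 ∧ ... ∧ dx_n` on the
`X_i` one obtains a rational section of `K_V - ∑ p_i^* K_{X_i}` whose products with the canonical forms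
of the `X_i` are regular. -/
def IsRelative {V : Type} [Field V] [Algebra ℂ V] {k N : ℕ} {F : Fin k → IntermediateField ℂ V}
    {n : Fin k → ℕ} (x : ∀ i, Fin (n i) → F i) (η : (Fin N → Derivation ℂ V V) → V) : Prop :=
  IsPluri 1 η ∧ η ≠ 0 ∧ ∀ f : ∀ i, F i, (∀ i, IsCanonical (x i) (f i)) →
    GlobalForm N (fun D => (∏ i, (f i : V)) * η D)

/-- **Non-vanishing for the images of families.** Let `V` be the function field of a variety of
dimension `N`, and let `F i ⊆ V`, `i < k`, be the function fields of varieties `X_i` of dimensions `n i`,
with coordinates `x i`, such that the canonical forms of `X_i` separate fewer than `g i` general points.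
Let `W ⊆ V` be the function field of a variety `W`, the extension being finite, such that `V` is
generated by `W` and the function fields of the `X_i` (i.e. `V ⇢ W × X_0 × ... × X_{k-1}` is
generically injective), and let `deg F W i < g i` for all `i < k`. Then `W` is uniruled if and only if
`V` is covered by rational curves contracted in all `X_i`, if and only if `V` is uniruled. If `V` is
uniruled or there is a nonzero relative form `η` as above then the following are equivalent:
`p_g(W) = 0`; `κ(W) = -∞`; `K_W` is not pseudo-effective; `W` is uniruled. -/
theorem result (k : ℕ) (n g : Fin k → ℕ) (N : ℕ) (V : Type) [Field V] [Algebra ℂ V]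
    [Algebra.EssFiniteType ℂ V] (hV : Algebra.trdeg ℂ V = N)
    (F : Fin k → IntermediateField ℂ V) (hn : ∀ i, Algebra.trdeg ℂ (F i) = n i)
    (x : ∀ i, Fin (n i) → F i) (hx : ∀ i, IsTranscendenceBasis ℂ (x i))
    (hsep : ∀ i, SeparatesPoints (x i) (g i))
    (W : Type) [Field W] [Algebra ℂ W] [Algebra W V] [IsScalarTower ℂ W V] [FiniteDimensional W V]
    (hinj : IntermediateField.adjoin W (⋃ i : Fin k, (F i : Set V)) = ⊤)
    (hdeg : ∀ i : Fin k, deg F W i < g i) :
    (IsUniruled ℂ W N ↔ IsUniruledOver (⨆ i, F i) N) ∧
    (IsUniruled ℂ V N ↔ IsUniruledOver (⨆ i, F i) N) ∧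
    ((IsUniruled ℂ V N ∨ ∃ η : (Fin N → Derivation ℂ V V) → V, IsRelative x η) →
      [∀ ω : (Fin N → Derivation ℂ W W) → W, GlobalForm N ω → ∀ D, ω D = 0,
        KodairaNeg ℂ W N, ¬ Psef ℂ W N (fun _ => False), IsUniruled ℂ W N].TFAE) := by
  have hA : ∀ (f : ∀ i, F i) (i : Fin k), f i ∈ N145.SX.HX (x i) (fun _ => False) ↔
      IsCanonical (x i) (f i) := by
    intro f i
    constructor
    · intro h
      exact ⟨Y184.NT.trForm_pluri _ _, fun P hP => (h P hP).2 id⟩
    · intro h P hP
      exact ⟨fun D hD => h.2 P hP D fun j => TH466.QG.derReg_of_log (hD j), fun _ => h.2 P hP⟩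
  have key := U393.LT.fam_main (K := W) hV hn hx (BX := fun _ _ => False) (g := g)
    (fun i Ω _ _ _ A hA c hc => hsep i Ω A hA c fun f hf => hc f fun P hP =>
      ⟨fun D hD => hf.2 P hP D fun j => TH466.QG.derReg_of_log (hD j), fun _ => hf.2 P hP⟩)
    (BV := fun _ => False) (BK := fun _ => False) (fun _ _ _ _ => Iff.rfl)
    (fun _ _ _ _ _ h => h) hdeg hinj
  have e1 : U393.LT.A1Over (⨆ i, F i) N (fun _ => False) ↔ IsUniruledOver (⨆ i, F i) N := by
    constructor
    · rintro ⟨M, i1, i2, φ, h1, h2, h3, -⟩
      exact ⟨M, i1, i2, h1, h2, φ, h3⟩
    · rintro ⟨M, i1, i2, h1, h2, φ, h3⟩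
      exact ⟨M, i1, i2, φ, h1, h2, h3, fun _ _ _ _ _ _ => id⟩
  have e2 : W619.PL.LogKodairaNeg ℂ W N (fun _ => False) ↔ KodairaNeg ℂ W N := by
    constructor
    · intro h m hm ω hω hreg
      exact h m hm ω hω (fun v hv _ => hreg v hv) (fun _ _ h => h.elim)
    · intro h m hm ω hω hreg _
      exact h m hm ω hω fun v hv => hreg v hv id
  have e3 : R882.LT.LogGenusZero W N (fun _ => False) ↔
      ∀ ω : (Fin N → Derivation ℂ W W) → W, GlobalForm N ω → ∀ D, ω D = 0 := by
    constructor
    · intro h ω hω
      exact h ω ⟨hω.1, fun P hP D hD => hω.2 P hP D fun i => TH466.QG.derReg_of_log (hD i),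
        fun P hP _ => hω.2 P hP⟩
    · intro h ω hω
      exact h ω ⟨hω.1, fun P hP => hω.2.2 P hP id⟩
  rw [e1, U393.LT.a1_false, U393.LT.a1_false, e2, e3] at key
  refine ⟨key.1, key.2.1, fun h => key.2.2 ?_⟩
  rcases h with h | ⟨η, hη, hη0, hreg⟩
  · exact Or.inl (key.2.1.1 h)
  · right
    refine ⟨η, hη, hη0, fun f hf => ?_⟩
    have h1 := hreg f fun i => (hA f i).1 (hf i)
    exact ⟨h1.1, fun P hP D hD => h1.2 P hP D fun j => TH466.QG.derReg_of_log (hD j),
      fun P hP _ => h1.2 P hP⟩

end Pool.Agent.Results.MP_813db1_ag.ImagesOfFamilies
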