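import Pool.Agent.U192.PX.Trans

/-!
# Nonvanishing for varieties with an isotrivial correspondence

Let `X` be a projective variety over `ℂ` of dimension `d`, `W` any variety, and let `V₁ ⊂ W × X` be a
correspondence of finite degree over `W`, dominant over `X`, which is birationally isotrivial over `X`:
for some dominant rational map `X' ⇢ X` with `dim X' = dim X` the fibre product `V₁ ×_X X'` (or one of
its components) is birational to a product `V = X' × Y`, `dim Y = r + 1 ≥ 1`. In other words, there is a
dominant rational map `f : V = X' × Y ⇢ W` of finite degree such that `V ⇢ W × X'` is injective on an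
open subset, and `V₁` is the image of `V` in `W × X`. The map `f` need not be compatible with the
projections, and it need not be a Galois cover. There is no map from `W` to `X` in general: the variety
`W` is covered by a family of varieties birational to `Y` which is parametrised by `X'`, and finitely
many members of the family pass through a general point.

Let `T` be a finite set of rational functions on `X` such that `1` and the functions in `T` generate the
function field of `V₁` as a vector space over `ℂ(W)` (they separate the points of `X` which correspond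
to a general point of `W`), and let `H` be the divisor of the poles of the functions in `T`.

**Theorem.** Suppose that `κ(X, K_X - 2 H) ≥ a ≥ 0`, for instance `a = 0` and a multiple of `K_X - 2 H` is
effective. Then

* `K_W` is pseudo-effective if and only if `K_Y` is pseudo-effective;
* `κ(W) ≥ 0` if and only if `κ(Y) ≥ 0`;
* `κ(W) ≥ a + κ(Y)`.

So Q1 for `W` (and for all compact complex manifolds bimeromorphic to `W`; they are Moishezon) is
equivalent to Q1 for `Y`: if `K_W` is pseudo-effective and `κ(W) = -∞` then `K_Y` is pseudo-effective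
and `κ(Y) = -∞`, and conversely. In particular Q1 is true for `W` if `dim Y ≤ 3`, where nonvanishing is
known (Miyaoka). Here `K_W` is pseudo-effective if for some divisor `A` there are sections of
`m K_W + A` for infinitely many `m`; this is equivalent to the existence of a singular metric with
positive curvature current on `K_W`.

For instance let `X ⊂ ℙ^{d + 1}` be a smooth hypersurface of degree `c`, and let `V₁` have degree `δ`
over `W`. Polynomials of degree `δ - 1` in a general linear form separate the points of `X` which
correspond to a general point of `W`, so `c ≥ d + 2 δ` is sufficient. If these points are linearly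
independent in `ℙ^{d + 1}` then the coordinates separate them, and `c ≥ d + 4` is sufficient.
If `T = ∅` then `X` is dominated by `W`, and `W → X` is an isotrivial fibre space.
(These remarks are not part of the Lean proof.)

The case `X' = X`, with the monomials in the coordinates of maps to projective spaces as functions in
`T`, is `NonvanishingTransfer` (MP_bc213e_ag, by the same agent). New are the base change `X' ⇢ X`, the
arbitrary set `T` and the last inequality: only the positivity of `X` and the degree of `V₁` over `W`
matter, not the degree of `V` over `W`.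

Proof. If `α` is a section of `m (K_X - 2 H) + A` and `β` a section of `m K_Y + B`, then the pull-back of
`α` to `X'` has zeros along the ramification of `X' ⇢ X`, and the form `α ⊠ β` on `V` is, up to poles which
do not depend on `m`, a section of the pull-back of `m (K_{V₁} - 2 H)` along the divisors which are not
mapped onto `X`. Along the divisors which are mapped onto `X` the map `V ⇢ V₁` is not ramified, because
the function field of `V` is generated by the ones of `V₁` and `X'`. The norm of `α ⊠ β` from the
function field of `V` to the one of `W`, multiplied by a power of the discriminant of a basis in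
`{1} ∪ T`, is a section of `m (deg f) K_W + C`, where `C` does not depend on `m`. Conversely, the
pull-backs to `V` of the sections of `m K_W + C` are restricted to the generic fibre of `V → X'`, and
their coefficients with respect to a basis of the function field of `X'` over `ℂ` are sections of
`m K_Y + B`.
-/

set_option autoImplicit false
set_option linter.overlappingInstances false
set_option maxHeartbeats 4000000

open FF Module Pool.Agent.W602.GT

namespace Pool.Agent.Results.MP_813db1_ag.IsotrivialCorrespondences

/-- The order of the poles along `v` of the functions in the finite set `T`: the multiplicity at `v`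
of `H`, the smallest effective divisor with `H + (t) ≥ 0` for all `t ∈ T`, `t ≠ 0`. -/
noncomputable def poleOrder {E : Type} [Field E] [Algebra ℂ E] (T : Finset E) (v : Place ℂ E) : ℕ :=
  T.sup fun z => (-v.ord z).toNat

/-- `θ` is a section of `m (K_X - 2 H)`, where `E` is the function field of `X`, of dimension `d`, and
`H` is the divisor of the poles of the functions in `T`: an `m`-canonical form of order at least
`2 m H_v` along all prime divisors `v` over `X`. -/
def IsSection {E : Type} [Field E] [Algebra ℂ E] (d m : ℕ) (T : Finset E)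
    (θ : (Fin d → Derivation ℂ E E) → E) : Prop :=
  IsPluri m θ ∧ ∀ v : Place ℂ E, Divisorial d v → ∀ G : Fin d → Derivation ℂ E E,
    (∀ i, DerReg v (G i)) → θ G = 0 ∨ 2 * (m : ℤ) * poleOrder T v ≤ v.ord (θ G)

/-- `κ(X, K_X - 2 H) ≥ a`: for some `m ≥ 1` there are `a + 1` sections of `m (K_X - 2 H)` with
algebraically independent ratios. -/
def IsPositive {E : Type} [Field E] [Algebra ℂ E] (d a : ℕ) (T : Finset E) : Prop :=
  ∃ m : ℕ, 1 ≤ m ∧ ∃ θ : Fin (a + 1) → (Fin d → Derivation ℂ E E) → E,
    (∀ j, IsSection d m T (θ j)) ∧ ∃ G : Fin d → Derivation ℂ E E, θ 0 G ≠ 0 ∧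
      AlgebraicIndependent ℂ fun j : Fin a => θ j.succ G / θ 0 G

/-- `1` and the functions in `T` generate the field `K(E)` as a vector space over `K`. Here `L` is the
function field of `V`, `E` the one of `X`, `K` the one of `W`, and so `K(E)` the one of `V₁`. -/
def Separates {L : Type} [Field L] [Algebra ℂ L] (K : Type) [Field K] [Algebra K L]
    (E : IntermediateField ℂ L) (T : Finset E) : Prop :=
  ∀ z ∈ IntermediateField.adjoin K (E : Set L),
    z ∈ Submodule.span K (insert 1 ((fun t : E => (t : L)) '' (T : Set E)))

/-- `ω` is a section of `m K_Z + A`, where `Z` is the variety of dimension `n` with the function field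
`k` and the divisor `A` is generated by the functions in the finite set `S`: the order of the
`m`-canonical form `ω` along each prime divisor `P` over `Z` is at least `ord_P(s)` for some nonzero
`s ∈ S`. For `S = {1}` it is a regular `m`-canonical form. -/
def IsTwistedForm (k : Type) [Field k] [Algebra ℂ k] (n m : ℕ) (S : Finset k)
    (ω : (Fin n → Derivation ℂ k k) → k) : Prop :=
  IsPluri m ω ∧ ∀ P : Place ℂ k, Divisorial n P → ∀ G : Fin n → Derivation ℂ k k,
    (∀ i, DerReg P (G i)) → ω G = 0 ∨ ∃ s ∈ S, s ≠ 0 ∧ P.ord s ≤ P.ord (ω G)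

/-- `K_Z` is pseudo-effective: for some divisor `A` there are nonzero sections of `m K_Z + A` for
infinitely many `m`. -/
def IsPseff (k : Type) [Field k] [Algebra ℂ k] (n : ℕ) : Prop :=
  ∃ S : Finset k, ∀ m0 : ℕ, ∃ m : ℕ, m0 ≤ m ∧ ∃ ω, IsTwistedForm k n m S ω ∧ ω ≠ 0

/-- `κ(Z) ≥ h`: for some `m ≥ 1` there are `h + 1` regular `m`-canonical forms with algebraically
independent ratios. -/
def KappaGe (k : Type) [Field k] [Algebra ℂ k] (n h : ℕ) : Prop :=
  ∃ m : ℕ, 1 ≤ m ∧ ∃ ω : Fin (h + 1) → (Fin n → Derivation ℂ k k) → k,
    (∀ l, IsTwistedForm k n m {1} (ω l)) ∧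
    ∃ D : Fin n → Derivation ℂ k k, (∀ l, ω l D ≠ 0) ∧
      AlgebraicIndependent ℂ fun l : Fin h => ω l.succ D / ω 0 D

theorem sec_iff {k : Type} [Field k] [Algebra ℂ k] {n m : ℕ} {S : Finset k}
    {ω : (Fin n → Derivation ℂ k k) → k} :
    IsTwistedForm k n m S ω ↔ Pool.Agent.Y174.PairSec ℂ k n (fun _ => 0) S m 1 ω := by
  constructor
  · rintro ⟨h1, h2⟩
    refine ⟨h1, fun P hP G hG => ?_⟩
    rcases h2 P hP G hG with h | ⟨s, hs, hs0, h⟩
    · exact Or.inl h
    · refine Or.inr ⟨s, hs, hs0, ?_⟩
      rw [mul_zero, sub_zero, Nat.cast_one, one_mul]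
      exact_mod_cast h
  · rintro ⟨h1, h2⟩
    refine ⟨h1, fun P hP G hG => ?_⟩
    rcases h2 P hP G hG with h | ⟨s, hs, hs0, h⟩
    · exact Or.inl h
    · refine Or.inr ⟨s, hs, hs0, ?_⟩
      rw [mul_zero, sub_zero, Nat.cast_one, one_mul] at h
      exact_mod_cast h

theorem kappa_iff {k : Type} [Field k] [Algebra ℂ k] {n h : ℕ} :
    KappaGe k n h ↔ Pool.Agent.Y174.PairKod ℂ k n (fun _ => 0) h := by
  constructor
  · rintro ⟨m, hm, ω, hω, D, hD, hind⟩
    exact ⟨m, hm, ω, fun l => U192.PT.sec_j.2 (sec_iff.1 (hω l)), D, hD, hind⟩
  · rintro ⟨m, hm, ω, hω, D, hD, hind⟩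
    exact ⟨m, hm, ω, fun l => sec_iff.2 (U192.PT.sec_j.1 (hω l)), D, hD, hind⟩

theorem pseff_iff {k : Type} [Field k] [Algebra ℂ k] {n : ℕ} :
    IsPseff k n ↔ ¬ U192.PN.PairNeg ℂ k n (fun _ => 0) := by
  unfold IsPseff U192.PN.PairNeg
  push Not
  constructor
  · rintro ⟨S, h⟩
    refine ⟨S, fun m0 => ?_⟩
    obtain ⟨m, hm, ω, hω, h0⟩ := h m0
    exact ⟨m, hm, U192.PT.indep_one.2 ⟨ω, sec_iff.1 hω, h0⟩⟩
  · rintro ⟨S, h⟩
    refine ⟨S, fun m0 => ?_⟩
    obtain ⟨m, hm, hi⟩ := h m0
    obtain ⟨ω, hω, h0⟩ := U192.PT.indep_one.1 hi
    exact ⟨m, hm, ω, sec_iff.2 hω, h0⟩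

/-- **Nonvanishing for isotrivial correspondences.** Let `L` be the function field of the product `V`
of the varieties `X'` and `Y` with the function fields `U` and `F`, of dimensions `d` and `r + 1`: it is
generated by `U` and `F` and has the transcendence degree `d + (r + 1)`. Let `E ⊆ U`, of
transcendence degree `d`, be the function field of `X`, let `K ⊆ L` be the function field of a variety
`W`, the extension being finite, such that `L` is generated by `K` and `U` (i.e. the map `V ⇢ W × X'` is
generically injective), and let `T ⊆ E` be a finite set which separates the points of `X` which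
correspond to a general point of `W`. Let `κ(X, K_X - 2 H) ≥ a`, where `H` is the divisor of the poles
of `T`. Then `K_W` is pseudo-effective if and only if `K_Y` is, `κ(W) ≥ 0` if and only if `κ(Y) ≥ 0`, and
`κ(W) ≥ a + b` if `κ(Y) ≥ b`. -/
theorem result {L : Type} [Field L] [Algebra ℂ L] [Algebra.EssFiniteType ℂ L]
    (E U F : IntermediateField ℂ L) (hEU : E ≤ U) (hUF : U ⊔ F = ⊤) {d r : ℕ}
    (hE : Algebra.trdeg ℂ E = d) (hU : Algebra.trdeg ℂ U = d)
    (hF : Algebra.trdeg ℂ F = (r + 1 : ℕ)) (hL : Algebra.trdeg ℂ L = (d + (r + 1) : ℕ))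
    (K : Type) [Field K] [Algebra ℂ K] [Algebra K L] [IsScalarTower ℂ K L] [FiniteDimensional K L]
    (hinj : IntermediateField.adjoin K (U : Set L) = ⊤) (T : Finset E) (hT : Separates K E T)
    (a : ℕ) (hpos : IsPositive d a T) :
    (IsPseff K (d + (r + 1)) ↔ IsPseff F (r + 1)) ∧
    (KappaGe K (d + (r + 1)) 0 ↔ KappaGe F (r + 1) 0) ∧
    ∀ b : ℕ, KappaGe F (r + 1) b → KappaGe K (d + (r + 1)) (a + b) := by
  classical
  have hessE : Algebra.EssFiniteType ℂ E := Pool.Agent.N999.SX.ess_any E
  have hessU : Algebra.EssFiniteType ℂ U := Pool.Agent.N999.SX.ess_any U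
  have hessF : Algebra.EssFiniteType ℂ F := Pool.Agent.N999.SX.ess_any F
  obtain ⟨m, hm, θ, hθ, D, hD, hind⟩ := hpos
  have hset : ∀ z ∈ IntermediateField.adjoin K (E : Set L),
      z ∈ Submodule.span K {z : L | ∃ t : E, (t = 1 ∨ t ∈ T) ∧ (t : L) = z} := by
    intro z hz
    refine Submodule.span_mono ?_ (hT z hz)
    rintro w (rfl | ⟨t, ht, rfl⟩)
    · exact ⟨1, Or.inl rfl, rfl⟩
    · exact ⟨t, Or.inr ht, rfl⟩
  have hsec : ∀ j, U192.PX.SecT d m T {1} (θ j) := fun j => ⟨(hθ j).1, fun P hP G hG => by
    rcases (hθ j).2 P hP G hG with h | h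
    · exact Or.inl h
    · refine Or.inr ⟨1, Finset.mem_singleton_self _, one_ne_zero, ?_⟩
      rw [P.ord_one, add_zero]
      exact h⟩
  have he : ∀ {e : ℕ}, 0 < e → (1 : ℝ) - e * (1 - 0) ≤ 0 := by
    intro e h
    have h1 : (1 : ℝ) ≤ e := by exact_mod_cast h
    linarith
  have hge : U192.PE.BdGe (K := K) U F (d + (r + 1)) (fun _ => 0) (fun _ => 0) := by
    intro P Q v e e' _ hv _ _
    rw [mul_zero]
    exact he hv.1
  obtain ⟨h1, h2⟩ := U192.PX.nonvan_transfer (K := K) (E := E) (U := U) (F := F) hm hUF hEU hE hU hF
    hL hinj hset (δ := fun _ => 0) (fun _ => le_rfl) (δV := fun _ => 0)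
    (fun P Q e hQ => (max_eq_left (he hQ.1)).symm) (δF := fun _ => 0) (fun _ => le_rfl)
    (fun _ _ => zero_le_one) (fun Q _ _ => ⟨fun _ => le_rfl, fun P e _ => le_max_left _ _⟩) hge
    (α := θ 0) (hsec 0) (fun h => hD (by rw [h]; rfl))
  refine ⟨by rw [pseff_iff, pseff_iff, h1], by rw [kappa_iff, kappa_iff, h2], fun b hb => ?_⟩
  exact kappa_iff.2 (U192.PX.kod_prod (K := K) (E := E) (U := U) (F := F) hUF hEU hE hU hF hL hinj
    hset (fun _ => le_rfl) (fun _ _ => zero_le_one) hge hm hsec hD hind (kappa_iff.1 hb))

end Pool.Agent.Results.MP_813db1_ag.IsotrivialCorrespondences
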