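import Pool.Agent.U976.TBd.K3

/-!
# Nonvanishing for Kummer covers of toric bundles over quotients of complex tori

Let `X = V / Γ` be the quotient of a complex torus of any dimension by any finite group; the torus need
not be algebraic, and the group may contain reflections, so that `K_X` may be negative. Let `Y → X` be a
toric bundle: all fibres are the same smooth complete toric variety, of any dimension, and the twists
`c i` are arbitrary line bundles on `X`. Let `F_j` be a section of the `m_j`-th power of the line bundle
`O_Y(e_j; A_j)` on `Y`, and let `Y'` be the Kummer cover of `Y` with the equations `y_j ^ m_j = F_j`. We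
assume that `Y'` is smooth, or only that its general fibre over `X` is smooth (then `K_{Y'}` is the
dualizing sheaf). So the theorem holds for all compact complex manifolds `Y'` of this form; they are in
class `C` (Kähler if the fan is projective), of any dimension and any algebraic dimension. The fibres of
`Y' → X` vary and may degenerate, and can be of any Kodaira type.

The theorem: `K_{Y'}` is `ℚ`-effective if and only if it is pseudo-effective, and if and only if for
some `q ≥ 1` there is an effective torus invariant divisor `∑ β_i D_i` on `Y` in the class of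
`q K_{Y'}` such that the line bundle `q K_{Y'} - ∑ β_i D_i` (a line bundle on `X`) is nef. If `V → X` is
unramified in codimension one (`K_X` is torsion, for instance `X` is a complex torus), this is so if and
only if the canonical bundle of the general fibre of `Y' → X` is `ℚ`-effective; so `κ (Y') = - ∞` if
and only if the fibres have Kodaira dimension `- ∞`.

The proof. `K_{Y'}` is the pullback of `K_Y + ∑ (1 - 1 / m_j) div F_j`. By normal crossings on the
general fibre and Hall's theorem all torus invariant divisors over the general fibre of `Y → X` have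
nonnegative log discrepancy for this pair. A section on `Y'` is a sum of monomials `g x ^ α y ^ b`, and
the product of a power of such a monomial with powers of the `F_j` is a section on `Y`. So the question
is reduced to the pair on `Y`; for pairs see `Pool.Agent.Results.MP_bc213e_ag.ToricBundles`.

`IsTorusQuotient` and `LineBundle` are defined in `Pool.Agent.W594.SYZ.Defs2`; `IsChernForm` and
`IsNefForm` in `Pool.Agent.W594.SYZ.TQDefs`; `IsRamification` in `Pool.Agent.TH735.AQ.MirDefs`;
`IsSmoothFan`, `LinEquiv` and `IsSection` in `Pool.Agent.Q47.TB.Defs`; `GenNormalCrossing` in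
`Pool.Agent.U976.TBd.NC2`; `IsCoverCanonical`, `canClass` and `IsCoverSection` in
`Pool.Agent.U976.TBd.K1`; `CoverEffective` and `CoverPsef` in `Pool.Agent.U976.TBd.K3`.
-/

set_option autoImplicit false

namespace Pool.Agent.Results.MP_813db1_ag.KummerCovers

open Pool.Agent.W594.SYZ2 Pool.Agent.TH735.AQ Q47.TB Pool.Agent.U976.TBd MvPolynomial

/-- Let `Y` be the toric bundle with the fan `u`, `S` and the twists `c i` over the torus quotient
`X = V / Γ`, let `F j` be a section of the `m j`-th power of `O_Y(e j; A j)`, such that the divisors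
`F j = 0` on the general fibres are smooth and have normal crossings, and let `Y'` be the Kummer cover
`y_j ^ m_j = F_j` of `Y`. Let `p K_{Y'}`, `p ≥ 1`, be the pullback of the line bundle `O_Y(D; L)`,
`D = canClass e m p`, where `H` is the Chern form of `L`.

(1) `K_{Y'}` is pseudo-effective if and only if it is `ℚ`-effective.
(2) It is `ℚ`-effective if and only if for some `q ≥ 1` there is an effective invariant divisor
`∑ β_i D_i` in the class of `q D` such that the line bundle `L ^ q ⊗ ∏ c_i ^ (-β_i)` on `X` is nef.
(3) If `V → X` is unramified in codimension one, it is `ℚ`-effective if and only if its restriction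
to the fibres over `X` is: there is an effective invariant divisor in the class of a multiple `q D`. -/
theorem result {V : Type*} [NormedAddCommGroup V] [NormedSpace ℂ V] [FiniteDimensional ℂ V]
    (Γ : Subgroup (V ≃ᵃ[ℂ] V)) (hΓ : IsTorusQuotient Γ) (ρ : V → ℂ) (hρ : IsRamification Γ ρ)
    {ι : Type*} [Fintype ι] {n : ℕ} (u : ι → Fin n → ℤ) (S : Set (Set ι)) (hS : IsSmoothFan u S)
    (c : ι → LineBundle Γ) (Hc : ι → V → V → ℂ) (hc : ∀ i, IsChernForm (c i) (Hc i))
    {k : ℕ} (m : Fin k → ℕ) (hm : ∀ j, 1 ≤ m j) (e : Fin k → ι → ℤ) (A : Fin k → LineBundle Γ)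
    (F : Fin k → V → MvPolynomial ι ℂ)
    (hF : ∀ j, IsSection u c (fun i => m j * e j i) (fun γ v => (A j).e γ v ^ m j) (F j))
    (hnc : GenNormalCrossing S F)
    (p : ℕ) (L : LineBundle Γ) (hL : IsCoverCanonical c A m p ρ L)
    (H : V → V → ℂ) (hH : IsChernForm L H) :
    (CoverPsef u S c e A m F (canClass e m p) L ↔
      CoverEffective u S c e A m F (canClass e m p) L) ∧
    (CoverEffective u S c e A m F (canClass e m p) L ↔ ∃ q : ℕ, 1 ≤ q ∧ ∃ β : ι → ℕ,
      LinEquiv u (fun i => (β i : ℤ)) (fun i => q * canClass e m p i) ∧
        IsNefForm fun v w => (q : ℂ) * H v w - ∑ i, (β i : ℂ) * Hc i v w) ∧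
    ((∀ v, ρ v ≠ 0) → (CoverEffective u S c e A m F (canClass e m p) L ↔
      ∃ q : ℕ, 1 ≤ q ∧ ∃ β : ι → ℕ,
        LinEquiv u (fun i => (β i : ℤ)) (fun i => q * canClass e m p i))) := by
  obtain ⟨h1, h2, h3⟩ := kummer_psef hΓ hρ hS hc hm hF hnc hL hH
  refine ⟨⟨fun h => h2 (h1 h), h3⟩, ⟨fun h => h1 (h3 h), h2⟩, fun h0 => ⟨fun h => ?_, ?_⟩⟩
  · obtain ⟨q, hq, β, hβ, -⟩ := h1 (h3 h)
    exact ⟨q, hq, β, hβ⟩
  · rintro ⟨q, hq, β, hβ⟩
    exact h2 ⟨q, hq, β, hβ, kummer_unram hΓ hρ h0 hS hc hm hF hnc hL hH hq hβ⟩

end Pool.Agent.Results.MP_813db1_ag.KummerCovers
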